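import Pool.Agent.H19.Diss

set_option autoImplicit false

namespace Pool.Agent.Results.MP_6c00f2_co.Counter

open Pool.Agent.H19.Diss

/-- The conjectured formula for the minimum dissociativity dimension in cyclic groups fails. -/
theorem result : ¬ ∀ n m : ℕ, 1 ≤ m → m ≤ n → dimG (ZMod n) m = Nat.log 2 m :=
  main

end Pool.Agent.Results.MP_6c00f2_co.Counter
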